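import Pool.Agent.H97.Bun.Main8

/-!
# Walks that may use the split pair once, with two edges
-/

set_option autoImplicit false
set_option linter.unusedSectionVars false

namespace Pool.Agent.H33.TP

open Set Pool.Agent.H75.Bunchy Pool.Agent.H97.Bun
open scoped Classical

/-- `Lead v I J Z q β`: some path of `G` from `q` to a vertex of `Z` successively visits vertices
over the members of `β` (after `q`), where from each vertex over `I` two different edges have to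
lead on when the next member of `β` is `J`. -/
def Lead {G H : Graph} (v : G.V → H.V) (I J : H.V) (Z : Set G.V) : G.V → List H.V → Prop
  | q, [] => q ∈ Z
  | q, K :: β => (∃ q' ∈ FollowersOver v q K, Lead v I J Z q' β) ∧
      (v q = I → K = J → ∃ f₁ f₂ : G.E, f₁ ≠ f₂ ∧
        (G.src f₁ = q ∧ v (G.tgt f₁) = K ∧ Lead v I J Z (G.tgt f₁) β) ∧
        (G.src f₂ = q ∧ v (G.tgt f₂) = K ∧ Lead v I J Z (G.tgt f₂) β))

variable {G H Q : Graph}

lemma Lead.image (Ψ : RightResolver G Q) (θ : Q.V → H.V) (v : G.V → H.V)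
    (hv : ∀ p, θ (Ψ.v p) = v p) {I J : H.V} {Z : Set G.V} (β : List H.V) (q : G.V)
    (h : Lead v I J Z q β) : Lead θ I J (Ψ.v '' Z) (Ψ.v q) β := by
  induction β generalizing q with
  | nil => exact ⟨q, h, rfl⟩
  | cons K β ih =>
    obtain ⟨⟨q', hq', h'⟩, h2⟩ := h
    refine ⟨⟨Ψ.v q', ?_, ih q' h'⟩, fun hI hJ => ?_⟩
    · rw [followersOver_image Ψ θ v hv]
      exact ⟨q', hq', rfl⟩
    · rw [hv] at hI
      obtain ⟨f₁, f₂, hf, ⟨a1, b1, c1⟩, ⟨a2, b2, c2⟩⟩ := h2 hI hJ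
      refine ⟨Ψ.e f₁, Ψ.e f₂, fun hh => hf (Ψ.edge_unique (by rw [a1, a2]) hh),
        ⟨by rw [Ψ.src_comm, a1], by rw [Ψ.tgt_comm, hv, b1], ?_⟩,
        ⟨by rw [Ψ.src_comm, a2], by rw [Ψ.tgt_comm, hv, b2], ?_⟩⟩
      · rw [Ψ.tgt_comm]; exact ih _ c1
      · rw [Ψ.tgt_comm]; exact ih _ c2

lemma hyb_mem {g g' : H.E} (hs : H.src g = H.src g') (ht : H.tgt g = H.tgt g')
    {u u' : List H.E} (h : Hyb g g' u u') :
    ∀ e ∈ u', ∃ e₀ ∈ u, H.src e = H.src e₀ ∧ H.tgt e = H.tgt e₀ := by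
  induction u generalizing u' with
  | nil => rw [h.nil_left]; simp
  | cons e u ih =>
    rw [hyb_cons] at h
    obtain ⟨f, v', hf, hv', rfl⟩ := h
    intro e' he'
    rw [List.mem_cons] at he'
    rcases he' with rfl | he'
    · refine ⟨e, List.mem_cons_self, ?_⟩
      rcases hf with rfl | rfl
      · exact ⟨rfl, rfl⟩
      · exact ⟨s_swap hs e, t_swap hs ht e⟩
    · obtain ⟨e₀, h1, h2⟩ := ih hv' e' he'
      exact ⟨e₀, List.mem_cons_of_mem _ h1, h2⟩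

/-- Recolour so that all words obtained from one word by exchanging `g` and `g'` lead from all `q`
with `Lead` into `Z`. -/
lemma exists_lead {I J : H.V} {g g' : H.E} (h12 : g ≠ g') (hsI : H.src g = I)
    (htJ : H.tgt g = J) (hsI' : H.src g' = I) (htJ' : H.tgt g' = J) (Z : Set G.V)
    (β : List H.V) : ∀ (K : H.V) (Φ : RightResolver G H),
    ((K :: β).zip β).Pairwise (fun a b => a = b → H.mult a.1 a.2 ≤ 1) →
    (∃ q, Φ.v q = K ∧ Lead Φ.v I J Z q β) →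
    ∃ (Φ' : RightResolver G H) (u : List H.E), Φ'.v = Φ.v ∧ Valid H.src H.tgt K u ∧
      (∀ q, Φ.v q = K → Lead Φ.v I J Z q β → ∀ u', Hyb g g' u u' → run Φ'.act q u' ∈ Z) ∧
      (∀ e ∈ u, (H.src e, H.tgt e) ∈ (K :: β).zip β) := by
  have hss : H.src g = H.src g' := by rw [hsI, hsI']
  have htt : H.tgt g = H.tgt g' := by rw [htJ, htJ']
  have hm2 : ¬ H.mult I J ≤ 1 := by
    intro h
    have h' := (Set.ncard_le_one (Set.toFinite _)).1 h
    exact h12 (h' g ⟨hsI, htJ⟩ g' ⟨hsI', htJ'⟩)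
  induction β with
  | nil =>
    intro K Φ _ _
    refine ⟨Φ, [], rfl, trivial, ?_, by simp⟩
    intro q _ h u' hu'
    rw [hu'.nil_left, run_nil]
    exact h
  | cons J' β ih =>
    intro K Φ hβ hex
    have hz : (K :: J' :: β).zip (J' :: β) = (K, J') :: ((J' :: β).zip β) := rfl
    rw [hz, List.pairwise_cons] at hβ
    obtain ⟨q₀, hq₀, ⟨q₁, hq₁, hal₁⟩, -⟩ := hex
    have hq₁J : Φ.v q₁ = J' := hq₁.2
    obtain ⟨Φ₁, u₁, hv₁, hval₁, hrun₁, hu₁⟩ := ih J' Φ hβ.2 ⟨q₁, hq₁J, hal₁⟩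
    rw [hz]
    rw [Φ.mem_followersOver] at hq₁
    obtain ⟨e₀, hs₀, ht₀, -⟩ := hq₁
    rw [hq₀] at hs₀
    by_cases hIJ : K = I ∧ J' = J
    · -- the pair `(I, J)`
      obtain ⟨rfl, rfl⟩ := hIJ
      have hnot : (K, J') ∉ (J' :: β).zip β := fun hmem => hm2 (hβ.1 _ hmem rfl)
      obtain ⟨Φ₂, hv₂, hΦ₂⟩ := Φ₁.exists_recolor (fun q π =>
        (∀ f, ¬ (H.src f = H.src g ∧ H.tgt f = H.tgt g) → π f = f) ∧
        (Φ.v q = K → Lead Φ.v K J' Z q (J' :: β) →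
          (Φ.v (Φ₁.act q (π g)) = J' ∧ Lead Φ.v K J' Z (Φ₁.act q (π g)) β) ∧
          (Φ.v (Φ₁.act q (π g')) = J' ∧ Lead Φ.v K J' Z (Φ₁.act q (π g')) β))) (by
        intro q
        by_cases hq : Φ.v q = K ∧ Lead Φ.v K J' Z q (J' :: β)
        · obtain ⟨hqK, -, h2⟩ := hq
          obtain ⟨f₁, f₂, hf, ⟨a1, b1, c1⟩, ⟨a2, b2, c2⟩⟩ := h2 hqK rfl
          have hf' : Φ₁.e f₁ ≠ Φ₁.e f₂ := fun hh => hf (Φ₁.edge_unique (by rw [a1, a2]) hh)
          obtain ⟨π, hπ1, hπ2, hπ3, hπ4⟩ := exists_perm2 H h12 hf' hss htt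
            (by rw [hsI, Φ₁.src_comm, a1, hv₁, hqK]) (by rw [htJ, Φ₁.tgt_comm, hv₁, b1])
            (by rw [hsI, Φ₁.src_comm, a2, hv₁, hqK]) (by rw [htJ, Φ₁.tgt_comm, hv₁, b2])
          have e1 : Φ₁.act q (π g) = G.tgt f₁ := by rw [hπ3, ← a1, Φ₁.act_eq]
          have e2 : Φ₁.act q (π g') = G.tgt f₂ := by rw [hπ4, ← a2, Φ₁.act_eq]
          exact ⟨π, hπ1, hπ2, fun _ _ => ⟨by rw [e1]; exact ⟨b1, c1⟩,
            by rw [e2]; exact ⟨b2, c2⟩⟩⟩
        · exact ⟨1, fun _ => ⟨rfl, rfl⟩, fun _ _ => rfl, fun h1 h2 => absurd ⟨h1, h2⟩ hq⟩)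
      have hact : ∀ v', Hyb g g' u₁ v' → ∀ e ∈ v', ∀ p, Φ₂.act p e = Φ₁.act p e := by
        intro v' hv' e he p
        obtain ⟨π, _, hQ, hπ⟩ := hΦ₂ p
        rw [hπ, hQ.1 e]
        rintro ⟨h1, h2⟩
        obtain ⟨e', he', hs', ht'⟩ := hyb_mem hss htt hv' e he
        apply hnot
        have := hu₁ e' he'
        rw [← hs', ← ht', h1, h2, hsI, htJ] at this
        exact this
      refine ⟨Φ₂, g :: u₁, by rw [hv₂, hv₁], ⟨hsI, by rw [htJ]; exact hval₁⟩, ?_, ?_⟩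
      · intro q hq hal w hw
        rw [hyb_cons] at hw
        obtain ⟨f, v', hf, hv', rfl⟩ := hw
        obtain ⟨π, _, hQ, hπ⟩ := hΦ₂ q
        obtain ⟨⟨c1, d1⟩, ⟨c2, d2⟩⟩ := hQ.2 hq hal
        rw [run_cons, run_congr (hact v' hv')]
        rcases hf with rfl | rfl
        · rw [hπ]; exact hrun₁ _ c1 d1 v' hv'
        · rw [Equiv.swap_apply_left, hπ]; exact hrun₁ _ c2 d2 v' hv'
      · intro e he
        rw [List.mem_cons] at he
        rcases he with rfl | he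
        · rw [hsI, htJ]; exact List.mem_cons_self
        · exact List.mem_cons_of_mem _ (hu₁ e he)
    · -- another pair
      have hfix : ∀ f : H.E, f = e₀ ∨ f = Equiv.swap g g' e₀ → f = e₀ := by
        rintro f (rfl | rfl)
        · rfl
        · apply Equiv.swap_apply_of_ne_of_ne
          · rintro rfl; exact hIJ ⟨by rw [← hs₀, hsI], by rw [← ht₀, htJ]⟩
          · rintro rfl; exact hIJ ⟨by rw [← hs₀, hsI'], by rw [← ht₀, htJ']⟩
      by_cases hm : H.mult K J' ≤ 1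
      · refine ⟨Φ₁, e₀ :: u₁, hv₁, ⟨hs₀, by rw [ht₀]; exact hval₁⟩, ?_, ?_⟩
        · rintro q hq ⟨⟨q', hq', hal⟩, -⟩ w hw
          rw [hyb_cons] at hw
          obtain ⟨f, v', hf, hv', rfl⟩ := hw
          rw [hfix f hf]
          have hq'' : q' ∈ FollowersOver Φ₁.v q J' := by rw [hv₁]; exact hq'
          rw [Φ₁.mem_followersOver] at hq''
          obtain ⟨h, hg1, hg2, hg3⟩ := hq''
          have hg0 : h = e₀ := by
            have hm' := (Set.ncard_le_one (Set.toFinite _)).1 hm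
            exact hm' h ⟨by rw [hg1, hv₁, hq], hg2⟩ e₀ ⟨hs₀, ht₀⟩
          subst hg0
          have hvq' : Φ.v q' = J' := hq'.2
          rw [run_cons, hg3]
          exact hrun₁ q' hvq' hal v' hv'
        · intro e he
          rw [List.mem_cons] at he
          rcases he with rfl | he
          · rw [hs₀, ht₀]; exact List.mem_cons_self
          · exact List.mem_cons_of_mem _ (hu₁ e he)
      · have hnot : (K, J') ∉ (J' :: β).zip β := fun hmem => hm (hβ.1 _ hmem rfl)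
        obtain ⟨Φ₂, hv₂, hΦ₂⟩ := Φ₁.exists_recolor (fun q π =>
          (∀ f, ¬ (H.src f = H.src e₀ ∧ H.tgt f = H.tgt e₀) → π f = f) ∧
          (Φ.v q = K → Lead Φ.v I J Z q (J' :: β) →
            Φ.v (Φ₁.act q (π e₀)) = J' ∧ Lead Φ.v I J Z (Φ₁.act q (π e₀)) β)) (by
          intro q
          by_cases hq : Φ.v q = K ∧ Lead Φ.v I J Z q (J' :: β)
          · obtain ⟨hqK, ⟨q', hq', hal⟩, -⟩ := hq
            have hq'' : q' ∈ FollowersOver Φ₁.v q J' := by rw [hv₁]; exact hq'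
            rw [Φ₁.mem_followersOver] at hq''
            obtain ⟨f, hf1, hf2, hf3⟩ := hq''
            obtain ⟨π, hπ1, hπ2, hπ3⟩ := exists_perm1 H (e := e₀) (f := f)
              (by rw [hf1, hv₁, hqK, hs₀]) (by rw [hf2, ht₀])
            exact ⟨π, hπ1, hπ2, fun _ _ => by rw [hπ3, hf3]; exact ⟨hq'.2, hal⟩⟩
          · exact ⟨1, fun _ => ⟨rfl, rfl⟩, fun _ _ => rfl, fun h1 h2 => absurd ⟨h1, h2⟩ hq⟩)
        have hact : ∀ v', Hyb g g' u₁ v' → ∀ e ∈ v', ∀ p, Φ₂.act p e = Φ₁.act p e := by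
          intro v' hv' e he p
          obtain ⟨π, _, hQ, hπ⟩ := hΦ₂ p
          rw [hπ, hQ.1 e]
          rintro ⟨h1, h2⟩
          obtain ⟨e', he', hs', ht'⟩ := hyb_mem hss htt hv' e he
          apply hnot
          have := hu₁ e' he'
          rw [← hs', ← ht', h1, h2, hs₀, ht₀] at this
          exact this
        refine ⟨Φ₂, e₀ :: u₁, by rw [hv₂, hv₁], ⟨hs₀, by rw [ht₀]; exact hval₁⟩, ?_, ?_⟩
        · intro q hq hal w hw
          rw [hyb_cons] at hw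
          obtain ⟨f, v', hf, hv', rfl⟩ := hw
          rw [hfix f hf]
          obtain ⟨π, _, hQ, hπ⟩ := hΦ₂ q
          obtain ⟨c1, d1⟩ := hQ.2 hq hal
          rw [run_cons, run_congr (hact v' hv'), hπ]
          exact hrun₁ _ c1 d1 v' hv'
        · intro e he
          rw [List.mem_cons] at he
          rcases he with rfl | he
          · rw [hs₀, ht₀]; exact List.mem_cons_self
          · exact List.mem_cons_of_mem _ (hu₁ e he)

/-- The step for the third alternative. -/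
theorem lead_step (Φ : RightResolver G H) (hG : G.StronglyConnected) {p₀ : G.V} {g g' : H.E}
    (hsg : H.src g = Φ.v p₀) (hsg' : H.src g' = H.src g) (htg' : H.tgt g' = H.tgt g)
    (hne : Φ.act p₀ g ≠ Φ.act p₀ g') {K : H.V} {β : List H.V} {Z : Set G.V}
    (h1 : ((K :: β).zip β).Pairwise (fun a b => a = b → H.mult a.1 a.2 ≤ 1))
    (h3 : Z.ncard ≤ 8) (h4 : ∀ q, Φ.v q = K → Lead Φ.v (H.src g) (H.tgt g) Z q β) :
    ∃ Φ' : RightResolver G H, Φ'.v = Φ.v ∧ ¬ NoStable H.src H.tgt Φ'.v Φ'.act := by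
  by_cases hfull : (Full Φ.v (H.src g) (H.tgt g)).Nonempty
  swap
  · refine exists_recolor_stable Φ hG hsg hsg' htg' hne (Or.inl ?_)
    rw [Set.not_nonempty_iff_eq_empty.1 hfull, Set.ncard_empty]; omega
  have h12 : g ≠ g' := fun h => hne (by rw [h])
  obtain ⟨x₀, hx₀⟩ := hfull
  obtain ⟨q, hq⟩ := Φ.v_surj K
  obtain ⟨Φ', u, hv, hu, hrun, _⟩ := exists_lead h12 rfl rfl hsg' htg' Z β K Φ h1 ⟨q, hq, h4 q hq⟩
  by_cases hno : NoStable H.src H.tgt Φ'.v Φ'.act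
  · have hinj := ((Φ'.mem_full_iff _ _ x₀).1 (by rw [hv]; exact hx₀)).2
    have hx₀' : Φ'.v x₀ = H.src g := by rw [hv]; exact hx₀.1
    have h := flip_eight (x := x₀) hsg'.symm htg'.symm Φ'.act_typed (Φ'.conn hG) hx₀'.symm
      (fun h => h12 (hinj ⟨rfl, rfl⟩ ⟨hsg', htg'⟩ h)) ⟨q, by rw [hv]; exact hq⟩ hu (by
        refine (Set.ncard_le_ncard ?_ (Set.toFinite _)).trans h3
        rintro z ⟨p, u', hp, hyb, rfl⟩
        rw [hv] at hp
        exact hrun p hp (h4 p hp) u' hyb) hno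
    obtain ⟨Φ'', hv'', hact⟩ := Φ'.exists_flip (e1 := g) (e2 := g') hsg'.symm htg'.symm {x₀}
    exact ⟨Φ'', by rw [hv'', hv], by rw [hv'', hact]; exact h⟩
  · exact ⟨Φ', hv, hno⟩

end Pool.Agent.H33.TP
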