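import Pool.Agent.H33.TP.Types
import Pool.Agent.H33.TP.Lead

/-!
# Bunchy synchronizing factors when the full vertices contain one of three pairs of followers
-/

set_option autoImplicit false
set_option linter.unusedSectionVars false

namespace Pool.Agent.H33.TP

open Set Pool.Agent.H75.Bunchy Pool.Agent.H97.Bun
open scoped Classical

/-- The condition on a pair `(I, J)` of vertices of `H` (with `m ≥ 2` edges from `I` to `J`):
* there are three pairs of vertices such that both members of one of the pairs are followers over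
  `J` of each full vertex over `I`, or
* any two full vertices over `I` have a common follower, or
* some vertex over `I` has, with every full vertex over `I`, a common follower over `J`, or
* there are a pair `y ≠ y'`, a vertex `t` and a sequence `I, J₁, …, Jₙ` of vertices of `H` in which
  no consecutive pair joined by at least two edges occurs twice and in which `(I, J)` does not
  occur except possibly as the first consecutive pair, such that every full vertex over `I` which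
  does not have both `y` and `y'` as followers over `J` reaches `t` by a path of `G` over this
  sequence. -/
def Good3 {G H : Graph} (v : G.V → H.V) (I J : H.V) : Prop :=
  (∃ y y' : Fin 3 → G.V, ∀ x ∈ Full v I J, ∃ i, y i ≠ y' i ∧ y i ∈ FollowersOver v x J ∧
    y' i ∈ FollowersOver v x J) ∨
  (∀ x ∈ Full v I J, ∀ y ∈ Full v I J, (G.Followers x ∩ G.Followers y).Nonempty) ∨
  (∃ x, v x = I ∧ ∀ y ∈ Full v I J, (FollowersOver v x J ∩ FollowersOver v y J).Nonempty) ∨
  (∃ (β : List H.V) (t y y' : G.V),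
    ((I :: β).zip β).Pairwise (fun a b => a = b → H.mult a.1 a.2 ≤ 1) ∧
      (I, J) ∉ ((I :: β).zip β).tail ∧ ∀ x ∈ Full v I J,
        (y ≠ y' ∧ y ∈ FollowersOver v x J ∧ y' ∈ FollowersOver v x J) ∨ Along v x β t)

section Heredity
variable {G Q H : Graph}

/-- a right resolver is injective on the followers of a vertex whose image is full -/
lemma full_injOn (Ψ : RightResolver G Q) (θ : Q.V → H.V) (Φ : RightResolver G H)
    (hv : ∀ p, θ (Ψ.v p) = Φ.v p) (I J : H.V) {p : G.V} (h : Ψ.v p ∈ Full θ I J) :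
    Set.InjOn Ψ.v (FollowersOver Φ.v p J) := by
  have hp := full_subset Ψ θ Φ hv I J h
  refine Set.injOn_of_ncard_image_eq ?_ (Set.toFinite _)
  rw [← followersOver_image Ψ θ Φ.v hv, h.2, hp.2]

lemma pair_image (Ψ : RightResolver G Q) (θ : Q.V → H.V) (Φ : RightResolver G H)
    (hv : ∀ p, θ (Ψ.v p) = Φ.v p) (I J : H.V) {p y y' : G.V} (h : Ψ.v p ∈ Full θ I J)
    (hne : y ≠ y') (hy : y ∈ FollowersOver Φ.v p J) (hy' : y' ∈ FollowersOver Φ.v p J) :
    Ψ.v y ≠ Ψ.v y' ∧ Ψ.v y ∈ FollowersOver θ (Ψ.v p) J ∧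
      Ψ.v y' ∈ FollowersOver θ (Ψ.v p) J := by
  rw [followersOver_image Ψ θ Φ.v hv]
  exact ⟨fun hh => hne (full_injOn Ψ θ Φ hv I J h hy hy' hh), ⟨y, hy, rfl⟩, ⟨y', hy', rfl⟩⟩

lemma Good3.image (Ψ : RightResolver G Q) (θ : Q.V → H.V) (Φ : RightResolver G H)
    (hv : ∀ p, θ (Ψ.v p) = Φ.v p) (I J : H.V) (h : Good3 Φ.v I J) : Good3 θ I J := by
  rcases h with ⟨y, y', h⟩ | h | ⟨x, hx, h⟩ | ⟨β, t, y, y', hβ, hIJ, h⟩
  · left
    refine ⟨fun i => Ψ.v (y i), fun i => Ψ.v (y' i), fun x hx => ?_⟩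
    obtain ⟨p, rfl⟩ := Ψ.v_surj x
    obtain ⟨i, h1, h2, h3⟩ := h p (full_subset Ψ θ Φ hv I J hx)
    exact ⟨i, pair_image Ψ θ Φ hv I J hx h1 h2 h3⟩
  · right; left
    intro x hx y hy
    obtain ⟨p, rfl⟩ := Ψ.v_surj x
    obtain ⟨q, rfl⟩ := Ψ.v_surj y
    obtain ⟨K, hK1, hK2⟩ := h p (full_subset Ψ θ Φ hv I J hx) q (full_subset Ψ θ Φ hv I J hy)
    refine ⟨Ψ.v K, ?_, ?_⟩
    · rw [followers_image]; exact ⟨K, hK1, rfl⟩
    · rw [followers_image]; exact ⟨K, hK2, rfl⟩
  · right; right; left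
    refine ⟨Ψ.v x, by rw [hv, hx], ?_⟩
    intro y hy
    obtain ⟨q, rfl⟩ := Ψ.v_surj y
    obtain ⟨K, hK1, hK2⟩ := h q (full_subset Ψ θ Φ hv I J hy)
    refine ⟨Ψ.v K, ?_, ?_⟩
    · rw [followersOver_image Ψ θ Φ.v hv]; exact ⟨K, hK1, rfl⟩
    · rw [followersOver_image Ψ θ Φ.v hv]; exact ⟨K, hK2, rfl⟩
  · right; right; right
    refine ⟨β, Ψ.v t, Ψ.v y, Ψ.v y', hβ, hIJ, ?_⟩
    intro x hx
    obtain ⟨p, rfl⟩ := Ψ.v_surj x
    rcases h p (full_subset Ψ θ Φ hv I J hx) with ⟨h1, h2, h3⟩ | h1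
    · exact Or.inl (pair_image Ψ θ Φ hv I J hx h1 h2 h3)
    · exact Or.inr (along_image Ψ θ Φ.v hv t _ p h1)

end Heredity

section StepLemma
variable {G H : Graph}

/-- the main step with types -/
theorem exists_recolor_stable3 (Φ : RightResolver G H) (hG : G.StronglyConnected) {p₀ : G.V}
    {g g' : H.E} (hsg : H.src g = Φ.v p₀) (hsg' : H.src g' = H.src g) (htg' : H.tgt g' = H.tgt g)
    (hne : Φ.act p₀ g ≠ Φ.act p₀ g') (hgood : Good3 Φ.v (H.src g) (H.tgt g)) :
    ∃ Φ' : RightResolver G H, Φ'.v = Φ.v ∧ ¬ NoStable H.src H.tgt Φ'.v Φ'.act := by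
  by_cases hfull : (Full Φ.v (H.src g) (H.tgt g)).Nonempty
  swap
  · refine exists_recolor_stable Φ hG hsg hsg' htg' hne (Or.inl ?_)
    rw [Set.not_nonempty_iff_eq_empty.1 hfull, Set.ncard_empty]; omega
  set I := H.src g with hI
  set J := H.tgt g with hJ
  have h12 : g ≠ g' := fun h => hne (by rw [h])
  -- from a flip to a recolouring
  have conv : ∀ Φ' : RightResolver G H, Φ'.v = Φ.v →
      (∃ δ : Set G.V, ¬ NoStable H.src H.tgt Φ'.v (flip g g' δ Φ'.act)) →
      ∃ Φ'' : RightResolver G H, Φ''.v = Φ.v ∧ ¬ NoStable H.src H.tgt Φ''.v Φ''.act := by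
    rintro Φ' hv ⟨δ, hδ⟩
    obtain ⟨Φ'', hv'', hact⟩ := Φ'.exists_flip hsg'.symm htg'.symm δ
    exact ⟨Φ'', by rw [hv'', hv], by rw [hv'', hact]; exact hδ⟩
  -- permutations for a pair of followers
  have hperm : ∀ (Φ₁ : RightResolver G H), Φ₁.v = Φ.v → ∀ p ∈ Full Φ.v I J, ∀ y y' : G.V,
      y ≠ y' → y ∈ FollowersOver Φ.v p J → y' ∈ FollowersOver Φ.v p J →
      ∃ π : Equiv.Perm H.E, (∀ g, H.src (π g) = H.src g ∧ H.tgt (π g) = H.tgt g) ∧
        (∀ f, ¬ (H.src f = H.src g ∧ H.tgt f = H.tgt g) → π f = f) ∧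
        Φ₁.act p (π g) = y ∧ Φ₁.act p (π g') = y' := by
    intro Φ₁ hv₁ p hp y y' hyy hy hy'
    rw [← hv₁, Φ₁.mem_followersOver] at hy hy'
    obtain ⟨f₁, a1, b1, c1⟩ := hy
    obtain ⟨f₂, a2, b2, c2⟩ := hy'
    have hf : f₁ ≠ f₂ := fun h => hyy (by rw [← c1, ← c2, h])
    have hvp : Φ₁.v p = H.src g := by rw [hv₁]; exact hp.1
    obtain ⟨π, h1, h2, h3, h4⟩ := exists_perm2 H h12 hf hsg'.symm htg'.symm
      (by rw [a1, hvp]) (by rw [b1]) (by rw [a2, hvp]) (by rw [b2])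
    exact ⟨π, h1, h2, by rw [h3, c1], by rw [h4, c2]⟩
  rcases hgood with ⟨y, y', hgood⟩ | hgood | hgood | ⟨β, t, y, y', hβ, hIJ, hgood⟩
  · -- three pairs
    have hgood' : ∀ x : G.V, ∃ i, x ∈ Full Φ.v I J → y i ≠ y' i ∧ y i ∈ FollowersOver Φ.v x J ∧
        y' i ∈ FollowersOver Φ.v x J := by
      intro x
      by_cases hx : x ∈ Full Φ.v I J
      · obtain ⟨i, hi⟩ := hgood x hx
        exact ⟨i, fun _ => hi⟩
      · exact ⟨0, fun h => absurd h hx⟩
    choose κ hκ using hgood'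
    obtain ⟨Φ', hv, hΦ'⟩ := Φ.exists_recolor (fun p π =>
      (Φ.v p = I → p ∉ Full Φ.v I J → Φ.act p (π g) = Φ.act p (π g')) ∧
      (p ∈ Full Φ.v I J → Φ.act p (π g) = y (κ p) ∧ Φ.act p (π g') = y' (κ p))) (by
        intro p
        by_cases hp : Φ.v p = I ∧ p ∉ Full Φ.v I J
        · obtain ⟨π, h1, _, h3⟩ := exists_perm_same Φ hp.1 hp.2 h12 rfl rfl hsg' htg'
          exact ⟨π, h1, fun _ _ => h3, fun h => absurd h hp.2⟩
        by_cases hpf : p ∈ Full Φ.v I J
        · obtain ⟨k1, k2, k3⟩ := hκ p hpf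
          obtain ⟨π, h1, _, h3, h4⟩ := hperm Φ rfl p hpf _ _ k1 k2 k3
          exact ⟨π, h1, fun h1 h2 => absurd ⟨h1, h2⟩ hp, fun _ => ⟨h3, h4⟩⟩
        · exact ⟨1, fun _ => ⟨rfl, rfl⟩, fun h1 h2 => absurd ⟨h1, h2⟩ hp,
            fun h => absurd h hpf⟩)
    have hD : Diff H.src Φ'.v Φ'.act g g' = Full Φ'.v I J := by
      refine diff_eq_full Φ' h12 rfl rfl hsg' htg' ?_
      intro p hp hpf
      obtain ⟨π, _, hQ, hπ⟩ := hΦ' p
      rw [hπ, hπ]
      exact hQ.1 (by rw [← hv]; exact hp) (by rw [← hv]; exact hpf)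
    have hact : ∀ p ∈ Full Φ.v I J, Φ'.act p g = y (κ p) ∧ Φ'.act p g' = y' (κ p) := by
      intro p hp
      obtain ⟨π, _, hQ, hπ⟩ := hΦ' p
      rw [hπ, hπ]
      exact hQ.2 hp
    refine conv Φ' hv (three_types hsg'.symm htg'.symm Φ'.act_typed (Φ'.conn hG) ?_ κ ?_)
    · rw [hD, hv]; exact hfull
    · rw [hD, hv]
      intro p hp q hq hpq
      rw [(hact p hp).1, (hact p hp).2, (hact q hq).1, (hact q hq).2, hpq]
      exact ⟨rfl, rfl⟩
  · exact exists_recolor_stable Φ hG hsg hsg' htg' hne (Or.inr (Or.inl hgood))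
  · exact exists_recolor_stable Φ hG hsg hsg' htg' hne (Or.inr (Or.inr (Or.inl hgood)))
  · -- all full vertices but those of one type reach `t`
    have hm : ¬ H.mult I J ≤ 1 := by
      intro h
      have h' := (Set.ncard_le_one (Set.toFinite _)).1 h
      exact h12 (h' g ⟨rfl, rfl⟩ g' ⟨hsg', htg'⟩)
    -- the type
    set Z : Set G.V := {x | x ∈ Full Φ.v I J ∧ y ≠ y' ∧ y ∈ FollowersOver Φ.v x J ∧
      y' ∈ FollowersOver Φ.v x J} with hZ
    have hgood' : ∀ x ∈ Full Φ.v I J, x ∉ Z → Along Φ.v x β t := by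
      intro x hx hxZ
      rcases hgood x hx with h | h
      · exact absurd ⟨hx, h⟩ hxZ
      · exact h
    -- it suffices to find a word
    have suff : ∀ (Φ' : RightResolver G H) (w : List H.E), Φ'.v = Φ.v →
        (∀ p, Φ.v p = I → p ∉ Full Φ.v I J → Φ'.act p g = Φ'.act p g') →
        (∀ p ∈ Z, Φ'.act p g = y ∧ Φ'.act p g' = y') →
        (∀ x ∈ Full Φ.v I J, x ∉ Z → Valid H.src H.tgt I w ∧ run Φ'.act x w = t ∧
          run (flip g g' Z Φ'.act) x w = t) →
        ∃ Φ'' : RightResolver G H, Φ''.v = Φ.v ∧ ¬ NoStable H.src H.tgt Φ''.v Φ''.act := by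
      intro Φ' w hvv hoff hZact hword
      have hD : Diff H.src Φ'.v Φ'.act g g' = Full Φ'.v I J :=
        diff_eq_full Φ' h12 rfl rfl hsg' htg' fun p hp hpf =>
          hoff p (by rw [← hvv]; exact hp) (by rw [← hvv]; exact hpf)
      refine conv Φ' hvv (all_but_type hsg'.symm htg'.symm Φ'.act_typed (Φ'.conn hG) ?_ Z ?_ ?_ ?_)
      · rw [hD, hvv]; exact hfull
      · rw [hD, hvv]; exact fun p hp => hp.1
      · intro p hp q hq
        rw [(hZact p hp).1, (hZact p hp).2, (hZact q hq).1, (hZact q hq).2]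
        exact ⟨rfl, rfl⟩
      · intro x hx y hy hxz hyz _
        rw [hD, hvv] at hx hy
        obtain ⟨hx1, hx2, hx3⟩ := hword x hx hxz
        obtain ⟨hy1, hy2, hy3⟩ := hword y hy hyz
        have hvx : Φ.v x = I := hx.1
        rw [← hvx] at hx1
        rw [hvv]
        exact ⟨fun hd => hd.2 _ hx1 (by rw [hx2, hy2]), fun hd => hd.2 _ hx1 (by rw [hx3, hy3])⟩
    by_cases hfirst : (I, J) ∈ (I :: β).zip β
    · -- the first step of the sequence is `(I, J)`
      cases β with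
      | nil => simp at hfirst
      | cons J' α =>
      have hzip : (I :: J' :: α).zip (J' :: α) = (I, J') :: ((J' :: α).zip α) := rfl
      rw [hzip, List.tail_cons] at hIJ
      rw [hzip, List.mem_cons] at hfirst
      have hJJ' : J = J' := by
        rcases hfirst with h | h
        · exact (Prod.mk.inj h).2
        · exact absurd h hIJ
      rw [← hJJ'] at hβ hgood' hIJ hzip
      rw [hzip, List.pairwise_cons] at hβ
      obtain ⟨Φ₁, u₁, hv₁, hrun₁, hu₁⟩ := exists_along t α J Φ hβ.2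
      obtain ⟨Φ', hv, hΦ'⟩ := Φ₁.exists_recolor (fun p π =>
        (∀ f, ¬ (H.src f = H.src g ∧ H.tgt f = H.tgt g) → π f = f) ∧
        (Φ.v p = I → p ∉ Full Φ.v I J → Φ₁.act p (π g) = Φ₁.act p (π g')) ∧
        (p ∈ Full Φ.v I J → p ∉ Z → ∃ q', Φ.v q' = J ∧ Along Φ.v q' α t ∧
          Φ₁.act p (π g) = q') ∧
        (p ∈ Z → Φ₁.act p (π g) = y ∧ Φ₁.act p (π g') = y')) (by
          intro p
          by_cases hp : Φ.v p = I ∧ p ∉ Full Φ.v I J
          · obtain ⟨π, h1, h2, h3⟩ := exists_perm_same Φ₁ (p := p) (I := I) (J := J)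
              (by rw [hv₁]; exact hp.1) (by rw [hv₁]; exact hp.2) h12 rfl rfl hsg' htg'
            exact ⟨π, h1, h2, fun _ _ => h3, fun h => absurd h hp.2, fun h => absurd h.1 hp.2⟩
          by_cases hpZ : p ∈ Z
          · obtain ⟨π, h1, h2, h3, h4⟩ := hperm Φ₁ hv₁ p hpZ.1 y y' hpZ.2.1 hpZ.2.2.1 hpZ.2.2.2
            exact ⟨π, h1, h2, fun h1 h2 => absurd ⟨h1, h2⟩ hp, fun _ h => absurd hpZ h,
              fun _ => ⟨h3, h4⟩⟩
          by_cases hpf : p ∈ Full Φ.v I J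
          · obtain ⟨q', hq', hal⟩ := hgood' p hpf hpZ
            have hvp : Φ.v p = I := hpf.1
            have hq'' : q' ∈ FollowersOver Φ₁.v p J := by rw [hv₁]; exact hq'
            rw [Φ₁.mem_followersOver] at hq''
            obtain ⟨f, hf1, hf2, hf3⟩ := hq''
            obtain ⟨π, hπ1, hπ2, hπ3⟩ := exists_perm1 H (e := g) (f := f)
              (by rw [hf1, hv₁, hvp]) (by rw [hf2])
            exact ⟨π, hπ1, hπ2, fun h1 h2 => absurd ⟨h1, h2⟩ hp,
              fun _ _ => ⟨q', hq'.2, hal, by rw [hπ3]; exact hf3⟩, fun h => absurd h hpZ⟩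
          · exact ⟨1, fun _ => ⟨rfl, rfl⟩, fun _ _ => rfl, fun h1 h2 => absurd ⟨h1, h2⟩ hp,
              fun h1 => absurd h1 hpf, fun h => absurd h hpZ⟩)
      have hvv : Φ'.v = Φ.v := by rw [hv, hv₁]
      have hact : ∀ e ∈ u₁, ∀ p, Φ'.act p e = Φ₁.act p e := by
        intro e he p
        obtain ⟨π, _, hQ, hπ⟩ := hΦ' p
        rw [hπ, hQ.1 e]
        rintro ⟨h1, h2⟩
        apply hIJ
        have := hu₁ e he
        rw [h1, h2] at this
        exact this
      have hact' : ∀ e ∈ u₁, ∀ p, flip g g' Z Φ'.act p e = Φ₁.act p e := by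
        intro e he p
        rw [flip_other, hact e he]
        · rintro rfl
          exact hIJ (hu₁ _ he)
        · rintro rfl
          have := hu₁ _ he
          rw [hsg', htg'] at this
          exact hIJ this
      refine suff Φ' (g :: u₁) hvv ?_ ?_ ?_
      · intro p hp hpf
        obtain ⟨π, _, hQ, hπ⟩ := hΦ' p
        rw [hπ, hπ]
        exact hQ.2.1 hp hpf
      · intro p hp
        obtain ⟨π, _, hQ, hπ⟩ := hΦ' p
        rw [hπ, hπ]
        exact hQ.2.2.2 hp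
      · intro x hx hxz
        obtain ⟨π, _, hQ, hπ⟩ := hΦ' x
        obtain ⟨q', hq'1, hq'2, hq'3⟩ := hQ.2.2.1 hx hxz
        obtain ⟨h1, h2⟩ := hrun₁ q' hq'1 hq'2
        have hx1 : Φ'.act x g = q' := by rw [hπ]; exact hq'3
        refine ⟨⟨rfl, h1⟩, ?_, ?_⟩
        · rw [run_cons, hx1, run_congr hact]; exact h2
        · rw [run_cons, flip_of_notMem hxz, hx1, run_congr hact']; exact h2
    · -- the pair `(I, J)` does not occur
      obtain ⟨Φ₁, u, hv₁, hrun₁, hu₁⟩ := exists_along t β I Φ hβ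
      obtain ⟨Φ', hv, hΦ'⟩ := Φ₁.exists_recolor (fun p π =>
        (∀ f, ¬ (H.src f = H.src g ∧ H.tgt f = H.tgt g) → π f = f) ∧
        (Φ.v p = I → p ∉ Full Φ.v I J → Φ₁.act p (π g) = Φ₁.act p (π g')) ∧
        (p ∈ Z → Φ₁.act p (π g) = y ∧ Φ₁.act p (π g') = y')) (by
          intro p
          by_cases hp : Φ.v p = I ∧ p ∉ Full Φ.v I J
          · obtain ⟨π, h1, h2, h3⟩ := exists_perm_same Φ₁ (p := p) (I := I) (J := J)
              (by rw [hv₁]; exact hp.1) (by rw [hv₁]; exact hp.2) h12 rfl rfl hsg' htg'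
            exact ⟨π, h1, h2, fun _ _ => h3, fun h => absurd h.1 hp.2⟩
          by_cases hpZ : p ∈ Z
          · obtain ⟨π, h1, h2, h3, h4⟩ := hperm Φ₁ hv₁ p hpZ.1 y y' hpZ.2.1 hpZ.2.2.1 hpZ.2.2.2
            exact ⟨π, h1, h2, fun h1 h2 => absurd ⟨h1, h2⟩ hp, fun _ => ⟨h3, h4⟩⟩
          · exact ⟨1, fun _ => ⟨rfl, rfl⟩, fun _ _ => rfl, fun h1 h2 => absurd ⟨h1, h2⟩ hp,
              fun h => absurd h hpZ⟩)
      have hvv : Φ'.v = Φ.v := by rw [hv, hv₁]
      have hact : ∀ e ∈ u, ∀ p, Φ'.act p e = Φ₁.act p e := by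
        intro e he p
        obtain ⟨π, _, hQ, hπ⟩ := hΦ' p
        rw [hπ, hQ.1 e]
        rintro ⟨h1, h2⟩
        apply hfirst
        have := hu₁ e he
        rw [h1, h2] at this
        exact this
      have hact' : ∀ e ∈ u, ∀ p, flip g g' Z Φ'.act p e = Φ₁.act p e := by
        intro e he p
        rw [flip_other, hact e he]
        · rintro rfl
          exact hfirst (hu₁ _ he)
        · rintro rfl
          have := hu₁ _ he
          rw [hsg', htg'] at this
          exact hfirst this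
      refine suff Φ' u hvv ?_ ?_ ?_
      · intro p hp hpf
        obtain ⟨π, _, hQ, hπ⟩ := hΦ' p
        rw [hπ, hπ]
        exact hQ.2.1 hp hpf
      · intro p hp
        obtain ⟨π, _, hQ, hπ⟩ := hΦ' p
        rw [hπ, hπ]
        exact hQ.2.2 hp
      · intro x hx hxz
        obtain ⟨h1, h2⟩ := hrun₁ x hx.1 (hgood' x hx hxz)
        refine ⟨h1, ?_, ?_⟩
        · rw [run_congr hact]; exact h2
        · rw [run_congr hact']; exact h2

end StepLemma

/-- The condition on a pair `(I, J)` of vertices of `H` (joined by at least two edges):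
* `Good3`, or
* some walk of `H` has between one and eight end vertices in `G`, or
* there are a vertex `K`, a sequence `K, J₁, …, Jₙ` of vertices of `H` in which no consecutive pair
  joined by at least two edges occurs twice, and a set `Z` of at most eight vertices of `G`, such
  that every vertex over `K` leads into `Z` along this sequence (with two edges at the pair
  `(I, J)`, if it occurs). -/
def Good38 {G H : Graph} (v : G.V → H.V) (I J : H.V) : Prop :=
  Good3 v I J ∨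
  (∃ (K : H.V) (β : List H.V), (WalkEnds v K β).Nonempty ∧ (WalkEnds v K β).ncard ≤ 8) ∨
  (∃ (K : H.V) (β : List H.V) (Z : Set G.V),
    ((K :: β).zip β).Pairwise (fun a b => a = b → H.mult a.1 a.2 ≤ 1) ∧
      Z.ncard ≤ 8 ∧ ∀ q, v q = K → Lead v I J Z q β)

section
variable {G Q H : Graph}

lemma Good38.image (Ψ : RightResolver G Q) (θ : Q.V → H.V) (Φ : RightResolver G H)
    (hv : ∀ p, θ (Ψ.v p) = Φ.v p) (I J : H.V) (h : Good38 Φ.v I J) : Good38 θ I J := by
  rcases h with h | ⟨K, β, hne, hc⟩ | ⟨K, β, Z, h1, h3, h4⟩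
  · exact Or.inl (h.image Ψ θ Φ hv I J)
  · have himg : WalkEnds θ K β = Ψ.v '' WalkEnds Φ.v K β := by
      ext t'
      constructor
      · rintro ⟨c, hc, hal⟩
        obtain ⟨q, rfl⟩ := Ψ.v_surj c
        obtain ⟨t, rfl, ht⟩ := along_lift Ψ θ Φ.v hv β q t' hal
        exact ⟨t, ⟨q, by rw [← hv]; exact hc, ht⟩, rfl⟩
      · rintro ⟨t, ⟨q, hq, ht⟩, rfl⟩
        exact ⟨Ψ.v q, by rw [hv]; exact hq, along_image Ψ θ Φ.v hv t β q ht⟩
    refine Or.inr (Or.inl ⟨K, β, ?_, ?_⟩)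
    · rw [himg]; exact hne.image _
    · rw [himg]; exact (Set.ncard_image_le (Set.toFinite _)).trans hc
  · refine Or.inr (Or.inr ⟨K, β, Ψ.v '' Z, h1,
      (Set.ncard_image_le (Set.toFinite _)).trans h3, fun c hc => ?_⟩)
    obtain ⟨q, rfl⟩ := Ψ.v_surj c
    exact Lead.image Ψ θ Φ.v hv β q (h4 q (by rw [← hv]; exact hc))

theorem good38_step (Φ : RightResolver G H) (hG : G.StronglyConnected)
    (hgood : ∀ I J, 2 ≤ H.mult I J → Good38 Φ.v I J) (p₀ : G.V) (g g' : H.E)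
    (hsg : H.src g = Φ.v p₀) (hsg' : H.src g' = H.src g) (htg' : H.tgt g' = H.tgt g)
    (hne : Φ.act p₀ g ≠ Φ.act p₀ g') :
    ∃ Φ' : RightResolver G H, Φ'.v = Φ.v ∧ ¬ NoStable H.src H.tgt Φ'.v Φ'.act := by
  have hmult : 2 ≤ H.mult (H.src g) (H.tgt g) := by
    have h12 : g ≠ g' := fun h => hne (by rw [h])
    rw [← Set.ncard_pair h12]
    refine Set.ncard_le_ncard ?_ (Set.toFinite _)
    rintro x (rfl | rfl)
    · exact ⟨rfl, rfl⟩
    · exact ⟨hsg', htg'⟩
  rcases hgood _ _ hmult with h | h | ⟨K, β, Z, h1, h3, h4⟩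
  · exact exists_recolor_stable3 Φ hG hsg hsg' htg' hne h
  · exact good8_step1 Φ hG p₀ g g' hsg hsg' htg' hne (Or.inr (Or.inl h))
  · exact lead_step Φ hG hsg hsg' htg' hne h1 h3 h4

end

/-- **Main theorem.** -/
theorem main38 (G B : Graph) (hG : G.StronglyConnected) (hB : IsBunchy B) (Φ : RightResolver G B)
    (hgood : ∀ I J, 2 ≤ B.mult I J → Good38 Φ.v I J) :
    ∃ H : Graph, IsBunchy H ∧ ∃ Ψ : RightResolver G H, Ψ.Synchronizing := by
  obtain ⟨Q, Θ, Ψ, hΨ, _, hbij⟩ := relative_of B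
    (fun G v => ∀ I J, 2 ≤ B.mult I J → Good38 v I J)
    (fun G Q Φ Ψ θ hv h I J hIJ => (h I J hIJ).image Ψ θ Φ hv I J)
    (fun G Φ hG h p₀ g g' hsg hsg' htg' hne => good38_step Φ hG h p₀ g g' hsg hsg' htg' hne)
    _ G rfl hG Φ hgood
  obtain ⟨M, hM, Λ, hΛ⟩ := hB
  refine ⟨Q, ⟨M, hM, RightResolver.comp Λ Θ, fun I => ?_⟩, Ψ, hΨ⟩
  exact (hΛ (Θ.v I)).comp (hbij I)

/-! ### The new conditions contain the old ones -/

/-- the condition `Good` of the earlier result implies `Good3` -/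
theorem Good.good3 {G H : Graph} (v : G.V → H.V) (I J : H.V) (hm : 2 ≤ H.mult I J)
    (h : Good v I J) : Good3 v I J := by
  have two : ∀ x ∈ Full v I J, ∃ y y' : G.V, y ≠ y' ∧ y ∈ FollowersOver v x J ∧
      y' ∈ FollowersOver v x J := by
    intro x hx
    have h1 : 1 < (FollowersOver v x J).ncard := by rw [hx.2]; omega
    obtain ⟨y, hy, y', hy', hne⟩ := (Set.one_lt_ncard_iff_nontrivial).1 h1
    exact ⟨y, y', hne, hy, hy'⟩
  rcases h with h | h | h | ⟨β, t, z, hβ, hIJ, h⟩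
  · by_cases hne : (Full v I J).Nonempty
    swap
    · exact Or.inr (Or.inl fun x hx => absurd ⟨x, hx⟩ hne)
    left
    obtain ⟨x₀, hx₀⟩ := hne
    set F := (Full v I J).toFinite.toFinset with hF
    have hFm : ∀ x, x ∈ F ↔ x ∈ Full v I J := fun x => by simp [hF]
    have hFc : F.card ≤ 3 := by rw [← Set.ncard_eq_toFinset_card]; exact h
    have hf : ∀ i : Fin 3, ∃ x ∈ Full v I J, ∀ hi : (i : ℕ) < F.card,
        x = (F.equivFin.symm ⟨i, hi⟩ : G.V) := by
      intro i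
      by_cases hi : (i : ℕ) < F.card
      · exact ⟨_, (hFm _).1 (F.equivFin.symm ⟨i, hi⟩).2, fun _ => rfl⟩
      · exact ⟨x₀, hx₀, fun h => absurd h hi⟩
    choose f hf1 hf2 using hf
    have hf3 : ∀ i, ∃ q : G.V × G.V, q.1 ≠ q.2 ∧ q.1 ∈ FollowersOver v (f i) J ∧
        q.2 ∈ FollowersOver v (f i) J := by
      intro i
      obtain ⟨y, y', h1, h2, h3⟩ := two (f i) (hf1 i)
      exact ⟨(y, y'), h1, h2, h3⟩
    choose q hq using hf3
    refine ⟨fun i => (q i).1, fun i => (q i).2, fun x hx => ?_⟩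
    have hxF : x ∈ F := (hFm x).2 hx
    have hlt := (F.equivFin ⟨x, hxF⟩).2
    refine ⟨⟨F.equivFin ⟨x, hxF⟩, hlt.trans_le hFc⟩, ?_⟩
    have hx' : f ⟨F.equivFin ⟨x, hxF⟩, hlt.trans_le hFc⟩ = x := by
      rw [hf2 _ hlt]
      simp
    have := hq ⟨F.equivFin ⟨x, hxF⟩, hlt.trans_le hFc⟩
    rw [hx'] at this
    exact this
  · exact Or.inr (Or.inl h)
  · exact Or.inr (Or.inr (Or.inl h))
  · right; right; right
    by_cases hz : z ∈ Full v I J
    · obtain ⟨y, y', h1, h2, h3⟩ := two z hz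
      refine ⟨β, t, y, y', hβ, hIJ, fun x hx => ?_⟩
      by_cases hxz : x = z
      · subst hxz; exact Or.inl ⟨h1, h2, h3⟩
      · exact Or.inr (h x hx hxz)
    · exact ⟨β, t, t, t, hβ, hIJ, fun x hx => Or.inr (h x hx (fun h' => hz (h' ▸ hx)))⟩

lemma lead_of_along {G H : Graph} (v : G.V → H.V) (I J : H.V) (Z : Set G.V) (β : List H.V) :
    ∀ (q t : G.V), (I, J) ∉ (v q :: β).zip β → t ∈ Z → Along v q β t → Lead v I J Z q β := by
  induction β with
  | nil =>
    intro q t _ ht h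
    have h' : q = t := h
    rw [h']
    exact ht
  | cons K β ih =>
    intro q t hIJ ht h
    obtain ⟨q', hq', h'⟩ := h
    have hz : (v q :: K :: β).zip (K :: β) = (v q, K) :: ((K :: β).zip β) := rfl
    rw [hz, List.mem_cons, not_or] at hIJ
    have hK : v q' = K := hq'.2
    refine ⟨⟨q', hq', ih q' t (by rw [hK]; exact hIJ.2) ht h'⟩, fun h1 h2 => ?_⟩
    exact absurd (by rw [h1, h2]) hIJ.1

/-- the condition `Good8` of the earlier result implies `Good38` -/
theorem Good8.good38 {G H : Graph} (v : G.V → H.V) (I J : H.V) (hm : 2 ≤ H.mult I J)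
    (h : Good8 v I J) : Good38 v I J := by
  rcases h with h | h | ⟨K, β, Z, h1, h2, h3, h4⟩
  · exact Or.inl (Good.good3 v I J hm h)
  · exact Or.inr (Or.inl h)
  · refine Or.inr (Or.inr ⟨K, β, Z, h1, h3, fun q hq => ?_⟩)
    obtain ⟨t, ht, hal⟩ := h4 q hq
    exact lead_of_along v I J Z β q t (by rw [hq]; exact h2) ht hal

end Pool.Agent.H33.TP
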