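import Pool.Agent.H75.Bunchy.Flip

/-!
# Swapping two parallel letters at a whole type of states

A *type* is a set of states on which two parallel letters lead to the same two states.
-/

set_option autoImplicit false
set_option linter.unusedSectionVars false
set_option linter.deprecated false

namespace Pool.Agent.H33.TP

open Set Pool.Agent.H75.Bunchy
open scoped Classical

variable {V K E : Type*} {s t : E → K} {σ : V → K} {a : V → E → V} {e1 e2 : E} [Finite V]

lemma fin3 : ∀ p q r i : Fin 3, q ≠ p → r ≠ p → r ≠ q → i = p ∨ i = q ∨ i = r := by decide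

/-- If for each pair of a minimal image of `a` and each letter, either the pair is moved by the
letter of `a'` as by some parallel letter of `a`, or its two successors are deadlocked for `a'`,
then all pairs of minimal images of `a` are deadlocked for `a'`. -/
lemma dead_of_letters (ha : Typed s t σ a) {a' : V → E → V} (ha' : Typed s t σ a')
    (h : ∀ x y, PP s t σ a x y → ∀ e, s e = σ x → (∃ e', s e' = s e ∧ t e' = t e ∧
      a' x e = a x e' ∧ a' y e = a y e') ∨ Dead s t σ a' (a' x e) (a' y e)) :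
    ∀ x y, PP s t σ a x y → Dead s t σ a' x y := by
  have key : ∀ (u : List E) (x y : V), PP s t σ a x y → Valid s t (σ x) u →
      run a' x u ≠ run a' y u := by
    intro u
    induction u with
    | nil => intro x y hxy _; exact hxy.1
    | cons e u ih =>
      intro x y hxy hu
      obtain ⟨h1, h2⟩ := hu
      rcases h x y hxy e h1 with ⟨e', he1, he2, hx, hy⟩ | hh
      · simp only [run_cons]
        rw [hx, hy]
        have hs : s e' = σ x := by rw [he1, h1]
        refine ih _ _ (hxy.letter ha hs) ?_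
        rw [ha x e' hs, he2]; exact h2
      · simp only [run_cons]
        refine hh.2 u ?_
        rw [ha' x e h1]; exact h2
  intro x y hxy
  exact ⟨(hxy.dead ha).1, fun u hu => key u x y hxy hu⟩

/-- both successors of the pair `x`, `y` under the letters `e1`, `e2` are deadlocked -/
def Cross (s t : E → K) (σ : V → K) (a : V → E → V) (e1 e2 : E) (x y : V) : Prop :=
  Dead s t σ a (a x e1) (a y e1) ∧ Dead s t σ a (a x e2) (a y e2)

lemma Cross.symm {x y : V} (h : Cross s t σ a e1 e2 x y) : Cross s t σ a e1 e2 y x :=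
  ⟨h.1.symm, h.2.symm⟩

lemma Cross.congr {x y x' y' : V} (h : Cross s t σ a e1 e2 x y)
    (hx : a x e1 = a x' e1 ∧ a x e2 = a x' e2) (hy : a y e1 = a y' e1 ∧ a y e2 = a y' e2) :
    Cross s t σ a e1 e2 x' y' := by
  obtain ⟨h1, h2⟩ := h
  rw [hx.1, hy.1] at h1
  rw [hx.2, hy.2] at h2
  exact ⟨h1, h2⟩

lemma cross_of_pp (ha : Typed s t σ a) (hs : s e1 = s e2) {x y : V} (hx : s e1 = σ x)
    (h : PP s t σ a x y) : Cross s t σ a e1 e2 x y :=
  ⟨(h.letter ha hx).dead ha, (h.letter ha (hs.symm.trans hx)).dead ha⟩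

variable (hs : s e1 = s e2) (ht : t e1 = t e2)
include hs ht

/-- swapping at a whole type `X` -/
lemma flip_type (ha : Typed s t σ a) (hc : Conn s σ a) {X : Set V}
    (hXD : X ⊆ Diff s σ a e1 e2) (hXs : ∀ p ∈ X, ∀ q ∈ X, a p e1 = a q e1)
    {x₀ : V} (hx₀ : x₀ ∈ X) (hno : NoStable s t σ (flip e1 e2 X a))
    (hr : rank s t σ (flip e1 e2 X a) ≤ rank s t σ a) :
    ∃ x ∈ X, ∃ y ∈ Diff s σ a e1 e2, y ∉ X ∧ PP s t σ a x y ∧
      ¬ Cross s t σ (flip e1 e2 X a) e1 e2 x y := by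
  by_contra hcon
  push Not at hcon
  obtain ⟨C, hC, hxC⟩ := exists_FC ha hc x₀
  have ha' : Typed s t σ (flip e1 e2 X a) := ha.flip hs ht _
  have hall : ∀ p q, PP s t σ a p q → Dead s t σ (flip e1 e2 X a) p q := by
    refine dead_of_letters ha ha' fun p q hpq e he => ?_
    by_cases hcut : (p ∈ X ∧ q ∈ Diff s σ a e1 e2 ∧ q ∉ X) ∨
        (q ∈ X ∧ p ∈ Diff s σ a e1 e2 ∧ p ∉ X)
    · have hcr : Cross s t σ (flip e1 e2 X a) e1 e2 p q := by
        rcases hcut with ⟨h1, h2, h3⟩ | ⟨h1, h2, h3⟩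
        · exact hcon p h1 q h2 h3 hpq
        · exact (hcon q h1 p h2 h3 hpq.symm).symm
      by_cases h1 : e = e1
      · subst h1; exact Or.inr hcr.1
      · by_cases h2 : e = e2
        · subst h2; exact Or.inr hcr.2
        · exact Or.inl ⟨e, rfl, rfl, flip_other h1 h2, flip_other h1 h2⟩
    · left
      push Not at hcut
      refine compat_flip hs ht (hpq.dead ha).1 ?_ ?_ e he
      · intro h1 h2 _ h4
        exact h2 (hcut.1 h1 h4)
      · intro h1 h2 _ h4
        exact h2 (hcut.2 h1 h4)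
  have hx₀D := hXD hx₀
  refine exists_stable (a := a) (a' := flip e1 e2 X a) (e := e1) (e' := e1) ha ha' (hc.flip hs _)
    (fun x y h => Or.inr (hall x y h)) hr hC hxC hx₀D.1 rfl rfl ?_ ?_ hno
  · intro z hz hzx
    refine flip_of_notMem (fun hzX => ?_) _
    exact (hC.deadSet ha z hz x₀ hxC hzx).2 [e1]
      ⟨hx₀D.1.trans (hC.type ha hz hxC).symm, trivial⟩ (hXs z hzX x₀ hx₀)
  · rw [flip_left hx₀]
    exact fun h => hx₀D.2 h.symm

/-- swapping at all types but `Z` -/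
lemma flip_compl_type (ha : Typed s t σ a) (hc : Conn s σ a) {Z δ : Set V}
    (hZD : Z ⊆ Diff s σ a e1 e2) (hZs : ∀ p ∈ Z, ∀ q ∈ Z, a p e1 = a q e1)
    {z₀ : V} (hz₀ : z₀ ∈ Z) (hδ : Diff s σ a e1 e2 ⊆ Z ∪ δ) (hdis : ∀ p ∈ Z, p ∉ δ)
    (hno : NoStable s t σ (flip e1 e2 δ a))
    (hr : rank s t σ (flip e1 e2 δ a) ≤ rank s t σ a) :
    ∃ z ∈ Z, ∃ w ∈ Diff s σ a e1 e2, w ∈ δ ∧ PP s t σ a z w ∧
      ¬ Cross s t σ (flip e1 e2 δ a) e1 e2 z w := by
  by_contra hcon
  push Not at hcon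
  obtain ⟨C, hC, hzC⟩ := exists_FC ha hc z₀
  have ha' : Typed s t σ (flip e1 e2 δ a) := ha.flip hs ht _
  have hall : ∀ p q, PP s t σ a p q → Dead s t σ (flip e1 e2 δ a) p q := by
    refine dead_of_letters ha ha' fun p q hpq e he => ?_
    by_cases hcut : (p ∈ Z ∧ q ∈ Diff s σ a e1 e2 ∧ q ∈ δ) ∨
        (q ∈ Z ∧ p ∈ Diff s σ a e1 e2 ∧ p ∈ δ)
    · have hcr : Cross s t σ (flip e1 e2 δ a) e1 e2 p q := by
        rcases hcut with ⟨h1, h2, h3⟩ | ⟨h1, h2, h3⟩
        · exact hcon p h1 q h2 h3 hpq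
        · exact (hcon q h1 p h2 h3 hpq.symm).symm
      by_cases h1 : e = e1
      · subst h1; exact Or.inr hcr.1
      · by_cases h2 : e = e2
        · subst h2; exact Or.inr hcr.2
        · exact Or.inl ⟨e, rfl, rfl, flip_other h1 h2, flip_other h1 h2⟩
    · left
      push Not at hcut
      refine compat_flip hs ht (hpq.dead ha).1 ?_ ?_ e he
      · intro h1 h2 h3 h4
        rcases hδ h4 with h | h
        · exact hcut.2 h h3 h1
        · exact h2 h
      · intro h1 h2 h3 h4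
        rcases hδ h4 with h | h
        · exact hcut.1 h h3 h1
        · exact h2 h
  have hz₀D := hZD hz₀
  refine exists_stable (a := a) (a' := flip e1 e2 δ a) (e := e1) (e' := e2) ha ha' (hc.flip hs _)
    (fun x y h => Or.inr (hall x y h)) hr hC hzC hz₀D.1 hs.symm ht.symm ?_ ?_ hno
  · intro z hz hzx
    have hsz : s e1 = σ z := hz₀D.1.trans (hC.type ha hz hzC).symm
    by_cases hzδ : z ∈ δ
    · exact flip_left hzδ
    · rw [flip_of_notMem hzδ]
      by_contra hne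
      rcases hδ ⟨hsz, hne⟩ with h | h
      · exact (hC.deadSet ha z hz z₀ hzC hzx).2 [e1] ⟨hsz, trivial⟩ (hZs z h z₀ hz₀)
      · exact hzδ h
  · rw [flip_of_notMem (hdis _ hz₀)]
    exact hz₀D.2

/-- At most three types of states at which two parallel letters differ. -/
theorem three_types (ha : Typed s t σ a) (hc : Conn s σ a) (hne : (Diff s σ a e1 e2).Nonempty)
    (κ : V → Fin 3) (hκ : ∀ p ∈ Diff s σ a e1 e2, ∀ q ∈ Diff s σ a e1 e2, κ p = κ q →
      a p e1 = a q e1 ∧ a p e2 = a q e2) : ∃ δ : Set V, ¬ NoStable s t σ (flip e1 e2 δ a) := by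
  by_contra hcon
  push Not at hcon
  set Δ := Diff s σ a e1 e2 with hΔ
  let D : Set (Fin 3) → Set V := fun S => {p | p ∈ Δ ∧ κ p ∈ S}
  have hDs : ∀ S T : Set (Fin 3), symmDiff (D S) (D T) = D (symmDiff S T) := by
    intro S T
    ext p
    simp only [D, Set.mem_symmDiff, mem_setOf_eq]
    tauto
  -- choose the maximal rank
  obtain ⟨S₀, hS₀⟩ := Finite.exists_max (fun S : Set (Fin 3) => rank s t σ (flip e1 e2 (D S) a))
  set b := flip e1 e2 (D S₀) a with hb
  have hbd : Diff s σ b e1 e2 = Δ := diff_flip (D S₀)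
  have hbt : Typed s t σ b := ha.flip hs ht _
  have hbc : Conn s σ b := hc.flip hs _
  have hff : ∀ S : Set (Fin 3), flip e1 e2 (D S) b = flip e1 e2 (D (symmDiff S₀ S)) a := by
    intro S; rw [hb, H75.Bunchy.flip_flip, hDs]
  have hN : ∀ S : Set (Fin 3), NoStable s t σ (flip e1 e2 (D S) b) := by
    intro S; rw [hff]; exact hcon _
  have hR : ∀ S : Set (Fin 3), rank s t σ (flip e1 e2 (D S) b) ≤ rank s t σ b := by
    intro S; rw [hff]; exact hS₀ _
  -- types of flipped colourings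
  have hty : ∀ (c : V → E → V), (∀ p ∈ Δ, ∀ q ∈ Δ, κ p = κ q → c p e1 = c q e1 ∧ c p e2 = c q e2) →
      ∀ (S : Set (Fin 3)), ∀ p ∈ Δ, ∀ q ∈ Δ, κ p = κ q →
      flip e1 e2 (D S) c p e1 = flip e1 e2 (D S) c q e1 ∧
      flip e1 e2 (D S) c p e2 = flip e1 e2 (D S) c q e2 := by
    intro c hcc S p hp q hq hpq
    obtain ⟨h1, h2⟩ := hcc p hp q hq hpq
    by_cases h : κ p ∈ S
    · have hp' : p ∈ D S := ⟨hp, h⟩
      have hq' : q ∈ D S := ⟨hq, hpq ▸ h⟩
      rw [flip_left hp', flip_left hq', flip_right hp', flip_right hq']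
      exact ⟨h2, h1⟩
    · have hp' : p ∉ D S := fun h' => h h'.2
      have hq' : q ∉ D S := fun h' => h (hpq ▸ h'.2)
      rw [flip_of_notMem hp', flip_of_notMem hq', flip_of_notMem hp', flip_of_notMem hq']
      exact ⟨h1, h2⟩
  have hκb := hty a hκ S₀
  rw [← hb] at hκb
  -- choose the type with minimal rank after the swap
  obtain ⟨x, hx, hmin⟩ := Set.exists_min_image Δ
    (fun x => rank s t σ (flip e1 e2 (D {κ x}) b)) (Set.toFinite _) hne
  have hDsub : ∀ S, D S ⊆ Δ := fun S p hp => hp.1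
  have hDself : ∀ {p : V}, p ∈ Δ → p ∈ D {κ p} := fun hp => ⟨hp, rfl⟩
  obtain ⟨x₁, hx₁, y, hy, hyX, _, hnd⟩ := flip_type hs ht hbt hbc (X := D {κ x})
    (by rw [hbd]; exact hDsub _) (fun p hp q hq => (hκb p hp.1 q hq.1 (by
      rw [show κ p = κ x from hp.2, show κ q = κ x from hq.2])).1) (hDself hx) (hN _) (hR _)
  rw [hbd] at hy
  set bX := flip e1 e2 (D {κ x}) b with hbX
  have hdX : Diff s σ bX e1 e2 = Δ := by rw [hbX, diff_flip, hbd]
  have htX : Typed s t σ bX := hbt.flip hs ht _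
  have hcX : Conn s σ bX := hbc.flip hs _
  have hκX := hty b hκb {κ x}
  rw [← hbX] at hκX
  have hyx : κ y ≠ κ x := fun h => hyX ⟨hy, h⟩
  have hx₁x : κ x₁ = κ x := hx₁.2
  obtain ⟨z, hz, hxz⟩ := partner hs ht htX hcX (hN _) (x := x) (by rw [hdX]; exact hx)
  obtain ⟨z', hz', hyz'⟩ := partner hs ht htX hcX (hN _) (x := y) (by rw [hdX]; exact hy)
  rw [hdX] at hz hz'
  have hcxz : Cross s t σ bX e1 e2 x z := cross_of_pp htX hs hx.1 hxz
  have hcyz : Cross s t σ bX e1 e2 y z' := cross_of_pp htX hs hy.1 hyz'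
  have hself : ∀ p ∈ Δ, ∀ q ∈ Δ, Cross s t σ bX e1 e2 p q → κ p ≠ κ q := by
    intro p hp q hq hpq h
    exact hpq.1.ne (hκX p hp q hq h).1
  have hzx : κ z ≠ κ x := (hself x hx z hz hcxz).symm
  have hz'y : κ z' ≠ κ y := (hself y hy z' hz' hcyz).symm
  have hzy : κ z ≠ κ y := by
    intro h
    exact hnd (hcxz.congr (hκX x hx x₁ hx₁.1 hx₁x.symm) (hκX z hz y hy h))
  have hz'x : κ z' ≠ κ x := by
    intro h
    exact hnd (hcyz.symm.congr (hκX z' hz' x₁ hx₁.1 (h.trans hx₁x.symm))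
      (hκX y hy y hy rfl))
  have hall : ∀ i : Fin 3, i = κ x ∨ i = κ y ∨ i = κ z :=
    fun i => fin3 _ _ _ i hyx hzx hzy
  have hzz : κ z' = κ z := by
    rcases hall (κ z') with h | h | h
    · exact absurd h hz'x
    · exact absurd h hz'y
    · exact h
  -- compare the swaps at the types of `x` and of `y`
  set bY := flip e1 e2 (D {κ y}) b with hbY
  have hdY : Diff s σ bY e1 e2 = Δ := by rw [hbY, diff_flip, hbd]
  have hκY := hty b hκb {κ y}
  rw [← hbY] at hκY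
  have hXY : flip e1 e2 (D {κ x, κ y}) bY = bX := by
    rw [hbY, H75.Bunchy.flip_flip, hDs, hbX]
    congr 2
    ext w
    simp only [Set.mem_symmDiff, mem_singleton_iff, mem_insert_iff]
    constructor
    · rintro (⟨h1, h2⟩ | ⟨h1, h2⟩)
      · exact absurd (Or.inr h1) h2
      · rcases h1 with h | h
        · exact h
        · exact absurd h h2
    · rintro rfl
      exact Or.inr ⟨Or.inl rfl, hyx.symm⟩
  obtain ⟨z₁, hz₁, w, hw, hwδ, _, hwd⟩ := flip_compl_type hs ht (a := bY) (hbt.flip hs ht _)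
    (hbc.flip hs _) (Z := D {κ z}) (δ := D {κ x, κ y}) (by rw [hdY]; exact hDsub _)
    (fun p hp q hq => (hκY p hp.1 q hq.1 (by
      rw [show κ p = κ z from hp.2, show κ q = κ z from hq.2])).1) (hDself hz)
    (by
      rw [hdY]
      intro p hp
      rcases hall (κ p) with h | h | h
      · exact Or.inr ⟨hp, Or.inl h⟩
      · exact Or.inr ⟨hp, Or.inr h⟩
      · exact Or.inl ⟨hp, h⟩)
    (by
      rintro p ⟨_, hp⟩ ⟨_, hp'⟩
      rw [show κ p = κ z from hp] at hp'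
      rcases hp' with h | h
      · exact hzx h
      · exact hzy h)
    (by rw [hXY]; exact hN _) (by rw [hXY]; exact hmin y hy)
  rw [hXY] at hwd
  have hz₁z : κ z₁ = κ z := hz₁.2
  rcases hwδ.2 with h | h
  · exact hwd (hcxz.symm.congr (hκX z hz z₁ hz₁.1 hz₁z.symm) (hκX x hx w hwδ.1 h.symm))
  · exact hwd (hcyz.symm.congr (hκX z' hz' z₁ hz₁.1 (hzz.trans hz₁z.symm))
      (hκX y hy w hwδ.1 (show κ w = κ y from h).symm))

/-- All pairs of `Diff` which do not meet the type `Z` can be merged. -/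
theorem all_but_type (ha : Typed s t σ a) (hc : Conn s σ a) (hne : (Diff s σ a e1 e2).Nonempty)
    (Z : Set V) (hZD : Z ⊆ Diff s σ a e1 e2)
    (hZs : ∀ p ∈ Z, ∀ q ∈ Z, a p e1 = a q e1 ∧ a p e2 = a q e2)
    (h : ∀ x ∈ Diff s σ a e1 e2, ∀ y ∈ Diff s σ a e1 e2, x ∉ Z → y ∉ Z → x ≠ y →
      ¬ Dead s t σ a x y ∧ ¬ Dead s t σ (flip e1 e2 Z a) x y) :
    ∃ δ : Set V, ¬ NoStable s t σ (flip e1 e2 δ a) := by
  by_contra hcon
  push Not at hcon
  have hN0 : NoStable s t σ a := by simpa [flip_empty] using hcon ∅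
  have hN1 : NoStable s t σ (flip e1 e2 Z a) := hcon Z
  have ht1 : Typed s t σ (flip e1 e2 Z a) := ha.flip hs ht _
  have hc1 : Conn s σ (flip e1 e2 Z a) := hc.flip hs _
  have hd1 : Diff s σ (flip e1 e2 Z a) e1 e2 = Diff s σ a e1 e2 := diff_flip Z
  have hZs1 : ∀ p ∈ Z, ∀ q ∈ Z, flip e1 e2 Z a p e1 = flip e1 e2 Z a q e1 ∧
      flip e1 e2 Z a p e2 = flip e1 e2 Z a q e2 := by
    intro p hp q hq
    rw [flip_left hp, flip_left hq, flip_right hp, flip_right hq]
    exact ⟨(hZs p hp q hq).2, (hZs p hp q hq).1⟩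
  have hP0 : ∀ x ∈ Diff s σ a e1 e2, x ∉ Z → ∃ z ∈ Z, Cross s t σ a e1 e2 x z := by
    intro x hx hxZ
    obtain ⟨y, hy, hxy⟩ := partner hs ht ha hc hN0 hx
    by_cases hyZ : y ∈ Z
    · exact ⟨y, hyZ, cross_of_pp ha hs hx.1 hxy⟩
    · exact absurd (hxy.dead ha) (h x hx y hy hxZ hyZ hxy.1).1
  have hP1 : ∀ x ∈ Diff s σ a e1 e2, x ∉ Z → ∃ z ∈ Z, Cross s t σ (flip e1 e2 Z a) e1 e2 x z := by
    intro x hx hxZ
    obtain ⟨y, hy, hxy⟩ := partner hs ht ht1 hc1 hN1 (x := x) (by rw [hd1]; exact hx)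
    rw [hd1] at hy
    by_cases hyZ : y ∈ Z
    · exact ⟨y, hyZ, cross_of_pp ht1 hs hx.1 hxy⟩
    · exact absurd (hxy.dead ht1) (h x hx y hy hxZ hyZ hxy.1).2
  have hz : ∃ z, z ∈ Z := by
    obtain ⟨x, hx⟩ := hne
    by_cases hxZ : x ∈ Z
    · exact ⟨x, hxZ⟩
    · obtain ⟨z, hz, _⟩ := hP0 x hx hxZ
      exact ⟨z, hz⟩
  obtain ⟨z₀, hz₀⟩ := hz
  rcases le_total (rank s t σ (flip e1 e2 Z a)) (rank s t σ a) with hr | hr
  · obtain ⟨z, hz, y, hy, hyZ, _, hnd⟩ := flip_type hs ht ha hc hZD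
      (fun p hp q hq => (hZs p hp q hq).1) hz₀ hN1 hr
    obtain ⟨z', hz', hcr⟩ := hP1 y hy hyZ
    exact hnd (hcr.symm.congr (hZs1 z' hz' z hz) ⟨rfl, rfl⟩)
  · have hff : flip e1 e2 Z (flip e1 e2 Z a) = a := by
      rw [H75.Bunchy.flip_flip, symmDiff_self]; exact flip_empty
    obtain ⟨z, hz, y, hy, hyZ, _, hnd⟩ := flip_type hs ht ht1 hc1 (X := Z)
      (by rw [hd1]; exact hZD) (fun p hp q hq => (hZs1 p hp q hq).1) hz₀
      (by rw [hff]; exact hN0) (by rw [hff]; exact hr)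
    rw [hff] at hnd
    rw [hd1] at hy
    obtain ⟨z', hz', hcr⟩ := hP0 y hy hyZ
    exact hnd (hcr.symm.congr (hZs z' hz' z hz) ⟨rfl, rfl⟩)

end Pool.Agent.H33.TP
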